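import Mathlib
import Pool.Agent.W2helper8.ZQ.Stm

/-! Project ZQ (helper8), piece MVT: mean values of short Dirichlet polynomials. -/

set_option autoImplicit false

namespace Pool.Agent.W2helper52.ZQ

open Finset Filter Topology MeasureTheory Complex
open Pool.Agent.W2helper8.ZQ

lemma sq_expand (S : Finset ℕ) (c l : ℕ → ℝ) (t : ℝ) :
    ‖∑ n ∈ S, (c n : ℂ) * e (-(l n * t))‖ ^ 2 =
      ∑ m ∈ S, ∑ n ∈ S, c m * c n * Real.cos ((l n - l m) * t) := by
  have hre : (∑ n ∈ S, (c n : ℂ) * e (-(l n * t))).re = ∑ n ∈ S, c n * Real.cos (l n * t) := by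
    rw [Complex.re_sum]
    refine Finset.sum_congr rfl fun n _ => ?_
    rw [Complex.re_ofReal_mul]
    unfold e
    rw [Complex.exp_ofReal_mul_I_re, Real.cos_neg]
  have him : (∑ n ∈ S, (c n : ℂ) * e (-(l n * t))).im = -∑ n ∈ S, c n * Real.sin (l n * t) := by
    rw [Complex.im_sum, ← Finset.sum_neg_distrib]
    refine Finset.sum_congr rfl fun n _ => ?_
    rw [Complex.im_ofReal_mul]
    unfold e
    rw [Complex.exp_ofReal_mul_I_im, Real.sin_neg]
    ring
  rw [Complex.sq_norm, Complex.normSq_apply, hre, him]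
  have h1 : ∀ f g : ℕ → ℝ, (∑ n ∈ S, f n) * (∑ n ∈ S, g n) = ∑ m ∈ S, ∑ n ∈ S, f m * g n := by
    intro f g
    rw [Finset.sum_mul_sum]
  have h2 : (∑ n ∈ S, c n * Real.cos (l n * t)) * (∑ n ∈ S, c n * Real.cos (l n * t)) +
      (-∑ n ∈ S, c n * Real.sin (l n * t)) * (-∑ n ∈ S, c n * Real.sin (l n * t)) =
      (∑ n ∈ S, c n * Real.cos (l n * t)) * (∑ n ∈ S, c n * Real.cos (l n * t)) +
      (∑ n ∈ S, c n * Real.sin (l n * t)) * (∑ n ∈ S, c n * Real.sin (l n * t)) := by ring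
  rw [h2, h1, h1, ← Finset.sum_add_distrib]
  refine Finset.sum_congr rfl fun m _ => ?_
  rw [← Finset.sum_add_distrib]
  refine Finset.sum_congr rfl fun n _ => ?_
  have h3 : (l n - l m) * t = l n * t - l m * t := by ring
  rw [h3, Real.cos_sub]
  ring

lemma int_cos_le (l A B : ℝ) (hl : l ≠ 0) : |∫ t in A..B, Real.cos (l * t)| ≤ 2 / |l| := by
  have h1 : ∫ t in A..B, Real.cos (l * t) = (Real.sin (l * B) - Real.sin (l * A)) / l := by
    rw [intervalIntegral.integral_comp_mul_left (fun x => Real.cos x) hl, integral_cos]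
    rw [smul_eq_mul]
    field_simp
  rw [h1, abs_div]
  have h2 : |Real.sin (l * B) - Real.sin (l * A)| ≤ 2 := by
    have h3 := Real.abs_sin_le_one (l * B)
    have h4 := Real.abs_sin_le_one (l * A)
    rw [abs_le] at h3 h4 ⊢
    constructor <;> linarith [h3.1, h3.2, h4.1, h4.2]
  exact div_le_div_of_nonneg_right h2 (abs_nonneg l)

lemma log_gap {m n M : ℕ} (hm : 1 ≤ m) (hn : 1 ≤ n) (hmM : m ≤ M) (hnM : n ≤ M) (hne : m ≠ n) :
    1 / (M : ℝ) ≤ |Real.log n - Real.log m| := by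
  wlog hlt : m < n generalizing m n
  · have h := this hn hm hnM hmM hne.symm (by omega)
    rwa [abs_sub_comm] at h
  have hm0 : (0 : ℝ) < m := by exact_mod_cast hm
  have hn0 : (0 : ℝ) < n := by exact_mod_cast hn
  have hM0 : (0 : ℝ) < M := lt_of_lt_of_le hn0 (by exact_mod_cast hnM)
  have h1 : 1 - ((n : ℝ) / m)⁻¹ ≤ Real.log ((n : ℝ) / m) := Real.one_sub_inv_le_log_of_pos (by positivity)
  rw [Real.log_div hn0.ne' hm0.ne', inv_div] at h1
  have h2 : (m : ℝ) + 1 ≤ n := by exact_mod_cast hlt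
  have h3 : 1 / (M : ℝ) ≤ 1 - (m : ℝ) / n := by
    have h4 : 1 / (M : ℝ) ≤ 1 / n := one_div_le_one_div_of_le hn0 (by exact_mod_cast hnM)
    have h5 : 1 - (m : ℝ) / n = (n - m) / n := by field_simp
    have h6 : 1 / (n : ℝ) ≤ (n - m) / n := div_le_div_of_nonneg_right (by linarith) hn0.le
    linarith
  exact le_trans (le_trans h3 h1) (le_abs_self _)

theorem p_mvt : S_MVT := by
  intro a ha
  refine ⟨3 + 2 / a, by positivity, fun T M c hT hM => ?_⟩
  have hT0 : 0 < T := by linarith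
  have hM2 : (M : ℝ) * M ≤ T := by
    have h1 : (M : ℝ) * M ≤ T ^ (1 / 4 : ℝ) * T ^ (1 / 4 : ℝ) :=
      mul_le_mul hM hM (by positivity) (by positivity)
    rw [← Real.rpow_add hT0] at h1
    have h2 : T ^ (1 / 4 + 1 / 4 : ℝ) ≤ T ^ (1 : ℝ) :=
      Real.rpow_le_rpow_of_exponent_le (by linarith) (by norm_num)
    rw [Real.rpow_one] at h2
    linarith
  set S : Finset ℕ := Icc 1 M with hS
  have hcard : ((S.card : ℕ) : ℝ) = M := by simp [hS]
  have h1 : ∀ t : ℝ, ‖∑ n ∈ S, (c n : ℂ) * e (-(a * Real.log n * t))‖ ^ 2 =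
      ∑ m ∈ S, ∑ n ∈ S, c m * c n * Real.cos ((a * Real.log n - a * Real.log m) * t) :=
    fun t => sq_expand S c (fun n => a * Real.log n) t
  simp only [h1]
  rw [intervalIntegral.integral_finset_sum (fun m _ => (Continuous.intervalIntegrable (by fun_prop) _ _))]
  have h2 : ∀ m ∈ S, ∫ t in (T / 2)..(3 * T), ∑ n ∈ S, c m * c n *
      Real.cos ((a * Real.log n - a * Real.log m) * t) =
      ∑ n ∈ S, c m * c n * ∫ t in (T / 2)..(3 * T), Real.cos ((a * Real.log n - a * Real.log m) * t) := by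
    intro m _
    rw [intervalIntegral.integral_finset_sum (fun m _ => (Continuous.intervalIntegrable (by fun_prop) _ _))]
    refine Finset.sum_congr rfl fun n _ => ?_
    rw [intervalIntegral.integral_const_mul]
  rw [Finset.sum_congr rfl h2]
  have h3 : ∀ m ∈ S, ∀ n ∈ S, c m * c n *
      ∫ t in (T / 2)..(3 * T), Real.cos ((a * Real.log n - a * Real.log m) * t) ≤
      (if m = n then c m ^ 2 * (3 * T) else 0) + |c m| * |c n| * (2 * M / a) := by
    intro m hm n hn
    rw [hS, Finset.mem_Icc] at hm hn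
    by_cases hmn : m = n
    · subst hmn
      rw [if_pos rfl]
      have h4 : ∫ t in (T / 2)..(3 * T), Real.cos ((a * Real.log m - a * Real.log m) * t) = 5 / 2 * T := by
        simp
        ring
      rw [h4]
      have h5 : 0 ≤ |c m| * |c m| * (2 * M / a) := by positivity
      nlinarith [sq_nonneg (c m), mul_nonneg (sq_nonneg (c m)) hT0.le]
    · rw [if_neg hmn, zero_add]
      have hM0 : (0 : ℝ) < M := by
        have : 1 ≤ M := le_trans hm.1 hm.2
        exact_mod_cast this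
      have hg := log_gap hm.1 hn.1 hm.2 hn.2 hmn
      have hl : a * Real.log n - a * Real.log m = a * (Real.log n - Real.log m) := by ring
      have hgpos : 0 < |Real.log n - Real.log m| := lt_of_lt_of_le (by positivity) hg
      have hl0 : a * Real.log n - a * Real.log m ≠ 0 := by
        rw [hl]
        exact mul_ne_zero ha.ne' (abs_pos.1 hgpos)
      have h4 := int_cos_le (a * Real.log n - a * Real.log m) (T / 2) (3 * T) hl0
      have h5 : 2 / |a * Real.log n - a * Real.log m| ≤ 2 * M / a := by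
        rw [hl, abs_mul, abs_of_pos ha]
        have h6 : a * (1 / (M : ℝ)) ≤ a * |Real.log n - Real.log m| := mul_le_mul_of_nonneg_left hg ha.le
        have h7 : 2 / (a * |Real.log n - Real.log m|) ≤ 2 / (a * (1 / (M : ℝ))) :=
          div_le_div_of_nonneg_left (by norm_num) (by positivity) h6
        have h8 : 2 / (a * (1 / (M : ℝ))) = 2 * M / a := by field_simp
        linarith
      calc c m * c n * ∫ t in (T / 2)..(3 * T), Real.cos ((a * Real.log n - a * Real.log m) * t)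
          ≤ |c m * c n * ∫ t in (T / 2)..(3 * T), Real.cos ((a * Real.log n - a * Real.log m) * t)| :=
            le_abs_self _
        _ = |c m| * |c n| * |∫ t in (T / 2)..(3 * T), Real.cos ((a * Real.log n - a * Real.log m) * t)| := by
            rw [abs_mul, abs_mul]
        _ ≤ |c m| * |c n| * (2 * M / a) :=
            mul_le_mul_of_nonneg_left (h4.trans h5) (by positivity)
  have h4 : ∑ m ∈ S, ∑ n ∈ S, c m * c n *
      ∫ t in (T / 2)..(3 * T), Real.cos ((a * Real.log n - a * Real.log m) * t) ≤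
      ∑ m ∈ S, ∑ n ∈ S, ((if m = n then c m ^ 2 * (3 * T) else 0) + |c m| * |c n| * (2 * M / a)) :=
    Finset.sum_le_sum fun m hm => Finset.sum_le_sum fun n hn => h3 m hm n hn
  refine h4.trans ?_
  have h5 : ∑ m ∈ S, ∑ n ∈ S, ((if m = n then c m ^ 2 * (3 * T) else 0) + |c m| * |c n| * (2 * M / a)) =
      3 * T * ∑ m ∈ S, c m ^ 2 + (2 * M / a) * ((∑ m ∈ S, |c m|) * (∑ n ∈ S, |c n|)) := by
    simp only [Finset.sum_add_distrib]
    congr 1
    · rw [Finset.mul_sum]
      refine Finset.sum_congr rfl fun m hm => ?_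
      rw [Finset.sum_ite_eq, if_pos hm]
      ring
    · rw [Finset.sum_mul_sum, Finset.mul_sum]
      refine Finset.sum_congr rfl fun m _ => ?_
      rw [Finset.mul_sum]
      refine Finset.sum_congr rfl fun n _ => ?_
      ring
  rw [h5]
  have h6 : (∑ m ∈ S, |c m|) * (∑ n ∈ S, |c n|) ≤ M * ∑ m ∈ S, c m ^ 2 := by
    have h7 := sq_sum_le_card_mul_sum_sq (s := S) (f := fun m => |c m|)
    simp only [sq_abs] at h7
    rw [sq, hcard] at h7
    exact h7
  have h8 : 0 ≤ ∑ m ∈ S, c m ^ 2 := Finset.sum_nonneg fun m _ => sq_nonneg _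
  have h9 : (2 * M / a) * ((∑ m ∈ S, |c m|) * (∑ n ∈ S, |c n|)) ≤ 2 / a * T * ∑ m ∈ S, c m ^ 2 := by
    calc (2 * M / a) * ((∑ m ∈ S, |c m|) * (∑ n ∈ S, |c n|))
        ≤ (2 * M / a) * (M * ∑ m ∈ S, c m ^ 2) := mul_le_mul_of_nonneg_left h6 (by positivity)
      _ = (2 / a * (M * M)) * ∑ m ∈ S, c m ^ 2 := by ring
      _ ≤ 2 / a * T * ∑ m ∈ S, c m ^ 2 := by
          refine mul_le_mul_of_nonneg_right ?_ h8
          exact mul_le_mul_of_nonneg_left hM2 (by positivity)
  have h10 : (3 + 2 / a) * T * ∑ n ∈ S, c n ^ 2 = 3 * T * ∑ m ∈ S, c m ^ 2 + 2 / a * T * ∑ m ∈ S, c m ^ 2 := by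
    ring
  rw [h10]
  linarith

end Pool.Agent.W2helper52.ZQ
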